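import Mathlib

set_option autoImplicit false
set_option linter.unusedVariables false

namespace Pool.Agent.Results.MP_415bd8_co.UnboundedSurplus

/-- `c` is a proper edge colouring of `G` (only the values of `c` on edges of `G` matter): any two
distinct edges of `G` sharing an endpoint receive different colours. -/
def IsProper {V : Type} (G : SimpleGraph V) (c : Sym2 V → ℕ) : Prop :=
  ∀ e ∈ G.edgeSet, ∀ f ∈ G.edgeSet, e ≠ f → (∃ v, v ∈ e ∧ v ∈ f) → c e ≠ c f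

/-- The number of colours `|c(E(G))|`. -/
noncomputable def numColors {V : Type} (G : SimpleGraph V) (c : Sym2 V → ℕ) : ℕ :=
  (c '' G.edgeSet).ncard

/-- The chromatic index: the least number of colours of a proper edge colouring. -/
noncomputable def chromIndex {V : Type} (G : SimpleGraph V) : ℕ :=
  sInf {n | ∃ c : Sym2 V → ℕ, IsProper G c ∧ numColors G c = n}

/-- `c` has a rainbow copy of `H` in `G`: an injective map of the vertices of `H` to those of `G`,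
sending edges to edges, such that `c` takes distinct values on the images of distinct edges. -/
def HasRainbow {W V : Type} (H : SimpleGraph W) (G : SimpleGraph V) (c : Sym2 V → ℕ) : Prop :=
  ∃ f : W → V, Function.Injective f ∧ (∀ x y, H.Adj x y → G.Adj (f x) (f y)) ∧
    ∀ e ∈ H.edgeSet, ∀ e' ∈ H.edgeSet, c (e.map f) = c (e'.map f) → e = e'

/-! ### The core of the gadget -/

theorem core (pa pb pc pd qa qb qc qd ab ac ad bc bd cd rq ra rb : ℕ)
  (p1 : pa ≠ pb) (p2 : pa ≠ pc) (p3 : pa ≠ pd) (p4 : pb ≠ pc) (p5 : pb ≠ pd) (p6 : pc ≠ pd)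
  (q1 : qa ≠ qb) (q2 : qa ≠ qc) (q3 : qa ≠ qd) (q4 : qb ≠ qc) (q5 : qb ≠ qd) (q6 : qc ≠ qd)
  (q7 : rq ≠ qa) (q8 : rq ≠ qb) (q9 : rq ≠ qc) (q10 : rq ≠ qd)
  (a1 : pa ≠ qa) (a2 : pa ≠ ab) (a3 : pa ≠ ac) (a4 : pa ≠ ad) (a5 : pa ≠ ra)
  (a6 : qa ≠ ab) (a7 : qa ≠ ac) (a8 : qa ≠ ad) (a9 : qa ≠ ra) (a10 : ab ≠ ac) (a11 : ab ≠ ad)
  (a12 : ab ≠ ra) (a13 : ac ≠ ad) (a14 : ac ≠ ra) (a15 : ad ≠ ra)
  (b1 : pb ≠ qb) (b2 : pb ≠ ab) (b3 : pb ≠ bc) (b4 : pb ≠ bd) (b5 : pb ≠ rb)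
  (b6 : qb ≠ ab) (b7 : qb ≠ bc) (b8 : qb ≠ bd) (b9 : qb ≠ rb) (b10 : ab ≠ bc) (b11 : ab ≠ bd)
  (b12 : ab ≠ rb) (b13 : bc ≠ bd) (b14 : bc ≠ rb) (b15 : bd ≠ rb)
  (c1 : pc ≠ qc) (c2 : pc ≠ ac) (c3 : pc ≠ bc) (c4 : pc ≠ cd) (c5 : qc ≠ ac) (c6 : qc ≠ bc)
  (c7 : qc ≠ cd) (c8 : ac ≠ bc) (c9 : ac ≠ cd) (c10 : bc ≠ cd)
  (d1 : pd ≠ qd) (d2 : pd ≠ ad) (d3 : pd ≠ bd) (d4 : pd ≠ cd) (d5 : qd ≠ ad) (d6 : qd ≠ bd)
  (d7 : qd ≠ cd) (d8 : ad ≠ bd) (d9 : ad ≠ cd) (d10 : bd ≠ cd)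
  (k1 : pa = bc ∨ pb = ac ∨ pc = ab) (k2 : pa = bd ∨ pb = ad ∨ pd = ab)
  (k3 : pa = cd ∨ pc = ad ∨ pd = ac) (k4 : pb = cd ∨ pc = bd ∨ pd = bc)
  (k5 : qa = bc ∨ qb = ac ∨ qc = ab) (k6 : qa = bd ∨ qb = ad ∨ qd = ab)
  (k7 : qa = cd ∨ qc = ad ∨ qd = ac) (k8 : qb = cd ∨ qc = bd ∨ qd = bc)
  (k9 : ab = cd ∨ ac = bd ∨ ad = bc)
  (k10 : rq = ab ∨ ra = qb ∨ rb = qa) : ab = cd ∧ rq = ab := by
  grind

section general

variable {V : Type} {G : SimpleGraph V} {c : Sym2 V → ℕ}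

lemma proper_ne (hc : IsProper G c) {u v w : V} (h1 : G.Adj u v) (h2 : G.Adj u w) (h : v ≠ w) :
    c s(u, v) ≠ c s(u, w) := by
  apply hc _ h1 _ h2
  · intro e
    rw [Sym2.eq_iff] at e
    rcases e with ⟨-, e⟩ | ⟨e1, e2⟩
    · exact h e
    · exact h (e2.trans e1)
  · exact ⟨u, Sym2.mem_mk_left _ _, Sym2.mem_mk_left _ _⟩

lemma four_cases : ∀ a b a' b' : Fin 4, a ≠ b → a' ≠ b' → s(a, b) ≠ s(a', b') →
    (a = a' ∨ a = b' ∨ b = a' ∨ b = b') ∨
    ((s(a, b) = s(0, 1) ∧ s(a', b') = s(2, 3)) ∨ (s(a, b) = s(2, 3) ∧ s(a', b') = s(0, 1))) ∨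
    ((s(a, b) = s(0, 2) ∧ s(a', b') = s(1, 3)) ∨ (s(a, b) = s(1, 3) ∧ s(a', b') = s(0, 2))) ∨
    ((s(a, b) = s(0, 3) ∧ s(a', b') = s(1, 2)) ∨ (s(a, b) = s(1, 2) ∧ s(a', b') = s(0, 3))) := by
  intro a b a' b' h1 h2 h3
  simp only [Sym2.eq_iff, ne_eq] at *
  revert a b a' b'
  set_option synthInstance.maxSize 4000 in
  set_option maxRecDepth 20000 in
  decide

/-- In a proper colouring without rainbow `K₄`, every `K₄` has two opposite edges of equal colour. -/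
lemma k4 (hc : IsProper G c) (hr : ¬ HasRainbow (⊤ : SimpleGraph (Fin 4)) G c) {w x y z : V}
    (hwx : G.Adj w x) (hwy : G.Adj w y) (hwz : G.Adj w z) (hxy : G.Adj x y) (hxz : G.Adj x z)
    (hyz : G.Adj y z) :
    c s(w, x) = c s(y, z) ∨ c s(w, y) = c s(x, z) ∨ c s(w, z) = c s(x, y) := by
  by_contra hcon
  push Not at hcon
  obtain ⟨h1, h2, h3⟩ := hcon
  apply hr
  have hadj : ∀ a b : Fin 4, a ≠ b → G.Adj (![w, x, y, z] a) (![w, x, y, z] b) := by
    intro a b hab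
    fin_cases a <;> fin_cases b <;> simp at hab ⊢ <;>
      first | assumption | (apply SimpleGraph.Adj.symm; assumption)
  refine ⟨![w, x, y, z], ?_, ?_, ?_⟩
  · intro a b hab
    by_contra hne
    exact (hadj a b hne).ne hab
  · intro a b hab
    exact hadj a b hab.ne
  · intro e he e' he' hcol
    induction e with | _ a b
    induction e' with | _ a' b'
    have hab : a ≠ b := by simpa using he
    have hab' : a' ≠ b' := by simpa using he'
    by_contra hne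
    simp only [Sym2.map_mk] at hcol
    rcases four_cases a b a' b' hab hab' hne with h | h | h | h
    · rcases h with rfl | rfl | rfl | rfl
      · exact proper_ne hc (hadj a b hab) (hadj a b' hab')
          (fun h => hne (by
            have : b = b' := by
              by_contra hbb
              exact (hadj b b' hbb).ne h
            rw [this])) hcol
      · rw [Sym2.eq_swap (a := (![w, x, y, z] a'))] at hcol
        exact proper_ne hc (hadj a b hab) (hadj a a' hab'.symm)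
          (fun h => hne (by
            have : b = a' := by
              by_contra hbb
              exact (hadj b a' hbb).ne h
            rw [this, Sym2.eq_swap])) hcol
      · rw [Sym2.eq_swap (a := (![w, x, y, z] a))] at hcol
        exact proper_ne hc (hadj b a hab.symm) (hadj b b' hab')
          (fun h => hne (by
            have : a = b' := by
              by_contra hbb
              exact (hadj a b' hbb).ne h
            rw [this, Sym2.eq_swap])) hcol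
      · rw [Sym2.eq_swap (a := (![w, x, y, z] a)), Sym2.eq_swap (a := (![w, x, y, z] a'))] at hcol
        exact proper_ne hc (hadj b a hab.symm) (hadj b a' hab'.symm)
          (fun h => hne (by
            have : a = a' := by
              by_contra hbb
              exact (hadj a a' hbb).ne h
            rw [this])) hcol
    all_goals
      rw [← Sym2.map_mk, ← Sym2.map_mk] at hcol
      rcases h with ⟨e1, e2⟩ | ⟨e1, e2⟩ <;> rw [e1, e2] at hcol <;>
        simp only [Sym2.map_mk] at hcol <;>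
        first
        | exact h1 hcol
        | exact h1 hcol.symm
        | exact h2 hcol
        | exact h2 hcol.symm
        | exact h3 hcol
        | exact h3 hcol.symm

/-- The gadget: `p, q, a, b, c, d` span a `K₆` minus the edge `pq`, and `r` is joined to `q, a, b`. -/
lemma gadget (hc : IsProper G c) (hr : ¬ HasRainbow (⊤ : SimpleGraph (Fin 4)) G c)
    {p q a b x d r : V} (hpa : G.Adj p a) (hpb : G.Adj p b) (hpx : G.Adj p x) (hpd : G.Adj p d)
    (hqa : G.Adj q a) (hqb : G.Adj q b) (hqx : G.Adj q x) (hqd : G.Adj q d)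
    (hab : G.Adj a b) (hax : G.Adj a x) (had : G.Adj a d) (hbx : G.Adj b x) (hbd : G.Adj b d)
    (hxd : G.Adj x d) (hrq : G.Adj r q) (hra : G.Adj r a) (hrb : G.Adj r b)
    (hpq : p ≠ q) (hrp : r ≠ p) (hrx : r ≠ x) (hrd : r ≠ d) :
    c s(a, b) = c s(x, d) ∧ c s(r, q) = c s(a, b) := by
  have E : ∀ {u v : V}, s(u, v) = s(v, u) := fun {u v} => Sym2.eq_swap
  have P : ∀ {u v w : V}, G.Adj u v → G.Adj u w → v ≠ w → c s(u, v) ≠ c s(u, w) :=
    fun h1 h2 h => proper_ne hc h1 h2 h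
  -- at the first end, second end
  have P12 : ∀ {u v w : V}, G.Adj u v → G.Adj w u → v ≠ w → c s(u, v) ≠ c s(w, u) := by
    intro u v w h1 h2 h
    rw [E (u := w)]
    exact P h1 h2.symm h
  have P21 : ∀ {u v w : V}, G.Adj v u → G.Adj u w → v ≠ w → c s(v, u) ≠ c s(u, w) := by
    intro u v w h1 h2 h
    rw [E (u := v)]
    exact P h1.symm h2 h
  have P22 : ∀ {u v w : V}, G.Adj v u → G.Adj w u → v ≠ w → c s(v, u) ≠ c s(w, u) := by
    intro u v w h1 h2 h
    rw [E (u := v), E (u := w)]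
    exact P h1.symm h2.symm h
  refine core (c s(p, a)) (c s(p, b)) (c s(p, x)) (c s(p, d)) (c s(q, a)) (c s(q, b)) (c s(q, x))
    (c s(q, d)) (c s(a, b)) (c s(a, x)) (c s(a, d)) (c s(b, x)) (c s(b, d)) (c s(x, d))
    (c s(r, q)) (c s(r, a)) (c s(r, b))
    (P hpa hpb hab.ne) (P hpa hpx hax.ne) (P hpa hpd had.ne) (P hpb hpx hbx.ne)
    (P hpb hpd hbd.ne) (P hpx hpd hxd.ne)
    (P hqa hqb hab.ne) (P hqa hqx hax.ne) (P hqa hqd had.ne) (P hqb hqx hbx.ne)
    (P hqb hqd hbd.ne) (P hqx hqd hxd.ne)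
    (P21 hrq hqa hra.ne) (P21 hrq hqb hrb.ne) (P21 hrq hqx hrx) (P21 hrq hqd hrd)
    (P22 hpa hqa hpq) (P21 hpa hab hpb.ne) (P21 hpa hax hpx.ne) (P21 hpa had hpd.ne)
    (P22 hpa hra hrp.symm)
    (P21 hqa hab hqb.ne) (P21 hqa hax hqx.ne) (P21 hqa had hqd.ne) (P22 hqa hra hrq.ne.symm)
    (P hab hax hbx.ne) (P hab had hbd.ne) (P12 hab hra hrb.ne.symm)
    (P hax had hxd.ne) (P12 hax hra hrx.symm) (P12 had hra hrd.symm)
    (P22 hpb hqb hpq) (P22 hpb hab hpa.ne) (P21 hpb hbx hpx.ne) (P21 hpb hbd hpd.ne)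
    (P22 hpb hrb hrp.symm)
    (P22 hqb hab hqa.ne) (P21 hqb hbx hqx.ne) (P21 hqb hbd hqd.ne) (P22 hqb hrb hrq.ne.symm)
    (P21 hab hbx hax.ne) (P21 hab hbd had.ne) (P22 hab hrb hra.ne.symm)
    (P hbx hbd hxd.ne) (P12 hbx hrb hrx.symm) (P12 hbd hrb hrd.symm)
    (P22 hpx hqx hpq) (P22 hpx hax hpa.ne) (P22 hpx hbx hpb.ne) (P21 hpx hxd hpd.ne)
    (P22 hqx hax hqa.ne) (P22 hqx hbx hqb.ne) (P21 hqx hxd hqd.ne)
    (P22 hax hbx hab.ne) (P21 hax hxd had.ne) (P21 hbx hxd hbd.ne)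
    (P22 hpd hqd hpq) (P22 hpd had hpa.ne) (P22 hpd hbd hpb.ne) (P22 hpd hxd hpx.ne)
    (P22 hqd had hqa.ne) (P22 hqd hbd hqb.ne) (P22 hqd hxd hqx.ne)
    (P22 had hbd hab.ne) (P22 had hxd hax.ne) (P22 hbd hxd hbx.ne)
    (k4 hc hr hpa hpb hpx hab hax hbx) (k4 hc hr hpa hpb hpd hab had hbd)
    (k4 hc hr hpa hpx hpd hax had hxd) (k4 hc hr hpb hpx hpd hbx hbd hxd)
    (k4 hc hr hqa hqb hqx hab hax hbx) (k4 hc hr hqa hqb hqd hab had hbd)
    (k4 hc hr hqa hqx hqd hax had hxd) (k4 hc hr hqb hqx hqd hbx hbd hxd)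
    (k4 hc hr hab hax had hbx hbd hxd)
    (k4 hc hr hrq hra hrb hqa hqb hab)

end general

/-! ### The graph. Labels `0, 1, 2, 3, 4, 5` stand for `p, q, a, b, c, d`. -/

/-- adjacency inside a cell: `K₆` minus the edge `pq`. -/
def A0 (x y : Fin 6) : Bool := x != y && !(decide (x.val < 2) && decide (y.val < 2))

/-- adjacency from a cell (label `x`) to the next cell (label `y`):
`qp', qc', qd', ap', bp'`. -/
def A1 (x y : Fin 6) : Bool :=
  (x == 1 && (y == 0 || y == 4 || y == 5)) || ((x == 2 || x == 3) && y == 0)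

lemma A0_symm : ∀ x y, A0 x y = A0 y x := by decide
lemma A0_irrefl : ∀ x, A0 x x = false := by decide

/-- adjacency in a chain of `m` cells. -/
def adjB {m : ℕ} (x y : Fin m × Fin 6) : Prop :=
  (x.1 = y.1 ∧ A0 x.2 y.2) ∨ (x.1.val + 1 = y.1.val ∧ A1 x.2 y.2) ∨
    (y.1.val + 1 = x.1.val ∧ A1 y.2 x.2)

lemma adjB_symm {m : ℕ} {x y : Fin m × Fin 6} (h : adjB x y) : adjB y x := by
  rcases h with ⟨h1, h2⟩ | h | h
  · exact Or.inl ⟨h1.symm, by rw [A0_symm]; exact h2⟩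
  · exact Or.inr (Or.inr h)
  · exact Or.inr (Or.inl h)

lemma adjB_ne {m : ℕ} {x y : Fin m × Fin 6} (h : adjB x y) : x ≠ y := by
  rintro rfl
  rcases h with ⟨-, h⟩ | ⟨h, -⟩ | ⟨h, -⟩
  · rw [A0_irrefl] at h
    exact absurd h (by simp)
  · omega
  · omega

lemma adjB_two {m : ℕ} {x y : Fin m × Fin 6} (h : adjB x y) (hx : x.2 = 2) : y.2 ≠ 2 := by
  intro hy
  rcases h with ⟨-, h⟩ | ⟨-, h⟩ | ⟨-, h⟩ <;> rw [hx, hy] at h <;> exact absurd h (by decide)

/-- The vertex set. -/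
abbrev Vt (m : ℕ) := Fin m × Fin m × Fin 6

/-- Block `i` placed in the vertex set: the `a`-vertex of cell `j` of block `i` is the `a`-vertex of
cell `i` of block `j`. -/
def phi {m : ℕ} (i : Fin m) (x : Fin m × Fin 6) : Vt m :=
  if x.2 = 2 then (min i x.1, max i x.1, 2) else (i, x.1, x.2)

lemma phi_lab {m : ℕ} (i : Fin m) (x : Fin m × Fin 6) : (phi i x).2.2 = x.2 := by
  unfold phi
  split_ifs with h
  · exact h.symm
  · rfl

lemma phi_two {m : ℕ} (i : Fin m) (x : Fin m × Fin 6) (h : x.2 = 2) :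
    phi i x = (min i x.1, max i x.1, 2) := by
  unfold phi
  rw [if_pos h]

lemma phi_non {m : ℕ} (i : Fin m) (x : Fin m × Fin 6) (h : x.2 ≠ 2) :
    phi i x = (i, x.1, x.2) := by
  unfold phi
  rw [if_neg h]

lemma phi_eq_non {m : ℕ} {i j : Fin m} {x y : Fin m × Fin 6} (hx : x.2 ≠ 2)
    (h : phi i x = phi j y) : i = j ∧ x = y := by
  have h2 : x.2 = y.2 := by rw [← phi_lab i x, ← phi_lab j y, h]
  have hy : y.2 ≠ 2 := by rw [← h2]; exact hx
  rw [phi_non i x hx, phi_non j y hy] at h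
  simp only [Prod.mk.injEq] at h
  exact ⟨h.1, Prod.ext h.2.1 h.2.2⟩

lemma minmax {m : ℕ} {i a j b : Fin m} (h1 : min i a = min j b) (h2 : max i a = max j b) :
    (i = j ∧ a = b) ∨ (a = j ∧ b = i) := by
  simp only [Fin.ext_iff] at *
  rcases le_total i a with h | h <;> rcases le_total j b with h' | h' <;>
    simp only [min_eq_left h, min_eq_right h, min_eq_left h', min_eq_right h', max_eq_left h,
      max_eq_right h, max_eq_left h', max_eq_right h'] at h1 h2 <;> omega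

lemma phi_eq_a {m : ℕ} {i j : Fin m} {x y : Fin m × Fin 6} (hx : x.2 = 2)
    (h : phi i x = phi j y) : (i = j ∧ x = y) ∨ (x.1 = j ∧ y.1 = i ∧ y.2 = 2) := by
  have h2 : x.2 = y.2 := by rw [← phi_lab i x, ← phi_lab j y, h]
  have hy : y.2 = 2 := by rw [← h2]; exact hx
  rw [phi_two i x hx, phi_two j y hy] at h
  simp only [Prod.mk.injEq] at h
  rcases minmax h.1 h.2.1 with ⟨h3, h4⟩ | ⟨h3, h4⟩
  · exact Or.inl ⟨h3, Prod.ext h4 h2⟩
  · exact Or.inr ⟨h3, h4, hy⟩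

lemma phi_inj {m : ℕ} {i : Fin m} {x y : Fin m × Fin 6} (h : phi i x = phi i y) : x = y := by
  by_cases hx : x.2 = 2
  · rcases phi_eq_a hx h with ⟨-, h⟩ | ⟨h1, h2, h3⟩
    · exact h
    · exact Prod.ext (h1.trans h2.symm) (hx.trans h3.symm)
  · exact (phi_eq_non hx h).2

/-- The graph `G m`: `m` blocks, each a chain of `m` cells. -/
def G (m : ℕ) : SimpleGraph (Vt m) where
  Adj u v := ∃ i x y, adjB x y ∧ phi i x = u ∧ phi i y = v
  symm := ⟨by
    rintro u v ⟨i, x, y, h, hx, hy⟩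
    exact ⟨i, y, x, adjB_symm h, hy, hx⟩⟩
  loopless := ⟨by
    rintro u ⟨i, x, y, h, hx, hy⟩
    exact adjB_ne h (phi_inj (hx.trans hy.symm))⟩

lemma adj_G {m : ℕ} (i : Fin m) {x y : Fin m × Fin 6} (h : adjB x y) :
    (G m).Adj (phi i x) (phi i y) := ⟨i, x, y, h, rfl, rfl⟩

lemma rep_unique {m : ℕ} {i i' : Fin m} {x y x' y' : Fin m × Fin 6} (h : adjB x y)
    (h' : adjB x' y') (e1 : phi i x = phi i' x') (e2 : phi i y = phi i' y') :
    i = i' ∧ x = x' ∧ y = y' := by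
  by_cases hx : x.2 = 2
  · have hy := adjB_two h hx
    obtain ⟨rfl, rfl⟩ := phi_eq_non hy e2
    exact ⟨rfl, phi_inj e1, rfl⟩
  · obtain ⟨rfl, rfl⟩ := phi_eq_non hx e1
    exact ⟨rfl, rfl, phi_inj e2⟩

lemma exists_col {m : ℕ} (κ : Fin m → Fin m × Fin 6 → Fin m × Fin 6 → ℕ)
    (hs : ∀ i x y, κ i x y = κ i y x) :
    ∃ c : Sym2 (Vt m) → ℕ, ∀ i x y, adjB x y → c s(phi i x, phi i y) = κ i x y := by
  classical
  refine ⟨fun e => if h : ∃ p : Fin m × (Fin m × Fin 6) × (Fin m × Fin 6),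
      adjB p.2.1 p.2.2 ∧ s(phi p.1 p.2.1, phi p.1 p.2.2) = e then
        κ h.choose.1 h.choose.2.1 h.choose.2.2 else 0, ?_⟩
  intro i x y h
  have hex : ∃ p : Fin m × (Fin m × Fin 6) × (Fin m × Fin 6),
      adjB p.2.1 p.2.2 ∧ s(phi p.1 p.2.1, phi p.1 p.2.2) = s(phi i x, phi i y) :=
    ⟨(i, x, y), h, rfl⟩
  simp only [dif_pos hex]
  obtain ⟨h1, h2⟩ := hex.choose_spec
  rw [Sym2.eq_iff] at h2
  rcases h2 with ⟨e1, e2⟩ | ⟨e1, e2⟩
  · obtain ⟨f1, f2, f3⟩ := rep_unique h1 h e1 e2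
    rw [f1, f2, f3]
  · obtain ⟨f1, f2, f3⟩ := rep_unique h1 (adjB_symm h) e1 e2
    rw [f1, f2, f3, hs]

lemma edge_rep {m : ℕ} {e : Sym2 (Vt m)} (he : e ∈ (G m).edgeSet) {v : Vt m} (hv : v ∈ e) :
    ∃ i x y, adjB x y ∧ e = s(phi i x, phi i y) ∧ v = phi i x := by
  induction e with | _ a b
  obtain ⟨i, x, y, h, rfl, rfl⟩ := he
  rw [Sym2.mem_iff] at hv
  rcases hv with rfl | rfl
  · exact ⟨i, x, y, h, rfl, rfl⟩
  · exact ⟨i, y, x, adjB_symm h, Sym2.eq_swap, rfl⟩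

lemma proper_of {m : ℕ} {κ : Fin m → Fin m × Fin 6 → Fin m × Fin 6 → ℕ}
    {c : Sym2 (Vt m) → ℕ} (hc : ∀ i x y, adjB x y → c s(phi i x, phi i y) = κ i x y)
    (h1 : ∀ i x y y', adjB x y → adjB x y' → y ≠ y' → κ i x y ≠ κ i x y')
    (h2 : ∀ (i i' : Fin m) (x y x' y' : Fin m × Fin 6), i ≠ i' → x.2 = 2 → x'.2 = 2 → x.1 = i' →
      x'.1 = i → adjB x y → adjB x' y' → κ i x y ≠ κ i' x' y') :
    IsProper (G m) c := by
  intro e he f hf hef ⟨v, hve, hvf⟩
  obtain ⟨i, x, y, h, rfl, rfl⟩ := edge_rep he hve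
  obtain ⟨i', x', y', h', rfl, hv⟩ := edge_rep hf hvf
  rw [hc i x y h, hc i' x' y' h']
  have key : i = i' ∧ x = x' → κ i x y ≠ κ i' x' y' := by
    rintro ⟨rfl, rfl⟩
    apply h1 i x y y' h h'
    rintro rfl
    exact hef rfl
  by_cases hx : x.2 = 2
  · rcases phi_eq_a hx hv with hh | ⟨hh1, hh2, hh3⟩
    · exact key hh
    · by_cases hii : i = i'
      · apply key
        exact ⟨hii, Prod.ext (by rw [hh1, hh2, hii]) (hx.trans hh3.symm)⟩
      · exact h2 i i' x y x' y' hii hx hh3 hh1 hh2 h h'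
  · exact key (phi_eq_non hx hv)

/-- codes of the edges of a chain from a table for edges inside a cell and a table for edges between
consecutive cells. -/
def kap (tin tcr : Fin 6 → Fin 6 → ℕ) {m : ℕ} (x y : Fin m × Fin 6) : ℕ :=
  if x.1 = y.1 then tin x.2 y.2 else if x.1.val < y.1.val then tcr x.2 y.2 else tcr y.2 x.2

lemma kap_symm {tin tcr : Fin 6 → Fin 6 → ℕ} (ht : ∀ x y, tin x y = tin y x) {m : ℕ}
    (x y : Fin m × Fin 6) : kap tin tcr x y = kap tin tcr y x := by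
  unfold kap
  by_cases h : x.1 = y.1
  · rw [if_pos h, if_pos h.symm, ht]
  · rw [if_neg h, if_neg (Ne.symm h)]
    have : x.1.val ≠ y.1.val := fun e => h (Fin.ext e)
    split_ifs <;> first | rfl | omega

/-- the local conditions for properness. -/
def LP (tin tcr : Fin 6 → Fin 6 → ℕ) : Prop :=
  (∀ l l1 l2, A0 l l1 → A0 l l2 → l1 ≠ l2 → tin l l1 ≠ tin l l2) ∧
  (∀ l l1 l2, A0 l l1 → A1 l l2 → tin l l1 ≠ tcr l l2) ∧
  (∀ l l1 l2, A0 l l1 → A1 l2 l → tin l l1 ≠ tcr l2 l) ∧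
  (∀ l l1 l2, A1 l l1 → A1 l l2 → l1 ≠ l2 → tcr l l1 ≠ tcr l l2) ∧
  (∀ l l1 l2, A1 l1 l → A1 l2 l → l1 ≠ l2 → tcr l1 l ≠ tcr l2 l) ∧
  (∀ l l1 l2, A1 l l1 → A1 l2 l → tcr l l1 ≠ tcr l2 l)

lemma kap_same {tin tcr : Fin 6 → Fin 6 → ℕ} {m : ℕ} {x y : Fin m × Fin 6} (h : x.1 = y.1) :
    kap tin tcr x y = tin x.2 y.2 := by unfold kap; rw [if_pos h]

lemma kap_right {tin tcr : Fin 6 → Fin 6 → ℕ} {m : ℕ} {x y : Fin m × Fin 6}
    (h : x.1.val + 1 = y.1.val) : kap tin tcr x y = tcr x.2 y.2 := by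
  unfold kap
  rw [if_neg (fun e => by rw [e] at h; omega), if_pos (by omega)]

lemma kap_left {tin tcr : Fin 6 → Fin 6 → ℕ} {m : ℕ} {x y : Fin m × Fin 6}
    (h : y.1.val + 1 = x.1.val) : kap tin tcr x y = tcr y.2 x.2 := by
  unfold kap
  rw [if_neg (fun e => by rw [e] at h; omega), if_neg (by omega)]

lemma kap_proper {tin tcr : Fin 6 → Fin 6 → ℕ} (hl : LP tin tcr) {m : ℕ}
    (x y y' : Fin m × Fin 6) (h : adjB x y) (h' : adjB x y') (hne : y ≠ y') :
    kap tin tcr x y ≠ kap tin tcr x y' := by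
  obtain ⟨l1, l2, l3, l4, l5, l6⟩ := hl
  have hne2 : y.1.val = y'.1.val → y.2 ≠ y'.2 := fun e1 e2 => hne (Prod.ext (Fin.ext e1) e2)
  rcases h with ⟨h, a⟩ | ⟨h, a⟩ | ⟨h, a⟩ <;> rcases h' with ⟨h', a'⟩ | ⟨h', a'⟩ | ⟨h', a'⟩
  · rw [kap_same h, kap_same h']
    exact l1 _ _ _ a a' (hne2 (by rw [← h, h']))
  · rw [kap_same h, kap_right h']
    exact l2 _ _ _ a a'
  · rw [kap_same h, kap_left h']
    exact l3 _ _ _ a a'
  · rw [kap_right h, kap_same h']
    exact (l2 _ _ _ a' a).symm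
  · rw [kap_right h, kap_right h']
    exact l4 _ _ _ a a' (hne2 (by omega))
  · rw [kap_right h, kap_left h']
    exact l6 _ _ _ a a'
  · rw [kap_left h, kap_same h']
    exact (l3 _ _ _ a' a).symm
  · rw [kap_left h, kap_right h']
    exact (l6 _ _ _ a' a).symm
  · rw [kap_left h, kap_left h']
    exact l5 _ _ _ a a' (hne2 (by omega))

/-! ### A proper colouring with at most 144 colours -/

def tin2 (x y : Fin 6) : ℕ := if x ≤ y then 6 * x.val + y.val else 6 * y.val + x.val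
def tcr2 (x y : Fin 6) : ℕ := 36 + 6 * x.val + y.val

lemma tin2_symm : ∀ x y, tin2 x y = tin2 y x := by decide
lemma tin2_lt : ∀ x y, tin2 x y < 72 := by decide
lemma tcr2_lt : ∀ x y, tcr2 x y < 72 := by decide

lemma LP2 : LP tin2 tcr2 := by
  unfold LP
  refine ⟨?_, ?_, ?_, ?_, ?_, ?_⟩ <;> decide

lemma A1_two : ∀ l, A1 l 2 = false := by decide

lemma min_pos {m : ℕ} {x y : Fin m × Fin 6} (h : adjB x y) (hx : x.2 = 2) :
    min x.1 y.1 = x.1 := by
  rcases h with ⟨h, -⟩ | ⟨h, -⟩ | ⟨-, h⟩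
  · rw [h, min_self]
  · exact min_eq_left (Fin.le_def.mpr (by omega))
  · rw [hx, A1_two] at h
    exact absurd h (by simp)

lemma kap_lt {tin tcr : Fin 6 → Fin 6 → ℕ} {N : ℕ} (h1 : ∀ x y, tin x y < N)
    (h2 : ∀ x y, tcr x y < N) {m : ℕ} (x y : Fin m × Fin 6) : kap tin tcr x y < N := by
  unfold kap
  split_ifs
  · exact h1 _ _
  · exact h2 _ _
  · exact h2 _ _

lemma chromIndex_le (m : ℕ) : chromIndex (G m) ≤ 144 := by
  obtain ⟨c, hc⟩ := exists_col (m := m)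
    (fun i x y => 2 * kap tin2 tcr2 x y + (if i < min x.1 y.1 then 1 else 0))
    (fun i x y => by rw [kap_symm tin2_symm, min_comm])
  have hp : IsProper (G m) c := by
    apply proper_of hc
    · intro i x y y' h h' hne
      have := kap_proper LP2 x y y' h h' hne
      split_ifs <;> omega
    · intro i i' x y x' y' hne hx hx' h1 h2 h h'
      rw [min_pos h hx, min_pos h' hx', h1, h2]
      rcases lt_or_gt_of_ne hne with h3 | h3
      · rw [if_pos h3, if_neg (not_lt.mpr h3.le)]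
        omega
      · rw [if_pos h3, if_neg (not_lt.mpr h3.le)]
        omega
  refine le_trans (Nat.sInf_le ⟨c, hp, rfl⟩) ?_
  unfold numColors
  have hsub : c '' (G m).edgeSet ⊆ Set.Iio 144 := by
    rintro _ ⟨e, he, rfl⟩
    induction e with | _ a b
    obtain ⟨i, x, y, h, rfl, rfl⟩ := he
    rw [Set.mem_Iio, hc i x y h]
    have := kap_lt (m := m) tin2_lt tcr2_lt x y
    split_ifs <;> omega
  calc (c '' (G m).edgeSet).ncard ≤ (Set.Iio 144 : Set ℕ).ncard :=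
        Set.ncard_le_ncard hsub (Set.finite_Iio 144)
    _ = 144 := by rw [Set.ncard_eq_toFinset_card']; simp

/-! ### A proper colouring without rainbow `K₄` -/

def tin3 (x y : Fin 6) : ℕ :=
  ([0, 0, 1, 2, 3, 4,
    0, 0, 4, 3, 1, 2,
    1, 4, 0, 0, 2, 3,
    2, 3, 0, 0, 4, 1,
    3, 1, 2, 4, 0, 0,
    4, 2, 3, 1, 0, 0].getD (6 * x.val + y.val) 0)
def tcr3 (x y : Fin 6) : ℕ :=
  if x = 1 then (if y = 0 then 0 else if y = 4 then 7 else 8) else if x = 2 then 5 else 6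

lemma tin3_symm : ∀ x y, tin3 x y = tin3 y x := by decide
lemma tin3_lt : ∀ x y, tin3 x y < 9 := by decide
lemma tcr3_lt : ∀ x y, tcr3 x y < 9 := by decide

lemma LP3 : LP tin3 tcr3 := by
  unfold LP
  refine ⟨?_, ?_, ?_, ?_, ?_, ?_⟩ <;> decide

/-- adjacency and codes in two consecutive cells. -/
def aL (s : Fin 2) (l : Fin 6) (t : Fin 2) (k : Fin 6) : Bool :=
  if s = t then A0 l k else if s < t then A1 l k else A1 k l

def kL (s : Fin 2) (l : Fin 6) (t : Fin 2) (k : Fin 6) : ℕ :=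
  if s = t then tin3 l k else if s < t then tcr3 l k else tcr3 k l

set_option maxRecDepth 100000 in
lemma local_k4 : ∀ (s0 : Fin 2) (l0 : Fin 6) (s1 : Fin 2) (l1 : Fin 6), aL s0 l0 s1 l1 = true →
    ∀ (s2 : Fin 2) (l2 : Fin 6), aL s0 l0 s2 l2 = true → aL s1 l1 s2 l2 = true →
    ∀ (s3 : Fin 2) (l3 : Fin 6), aL s0 l0 s3 l3 = true → aL s1 l1 s3 l3 = true →
      aL s2 l2 s3 l3 = true →
      (kL s0 l0 s1 l1 = kL s2 l2 s3 l3 ∨ kL s0 l0 s2 l2 = kL s1 l1 s3 l3 ∨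
        kL s0 l0 s3 l3 = kL s1 l1 s2 l2) := by
  decide

/-- the third and fourth vertex of a clique lie in the same block. -/
lemma common {m : ℕ} {i : Fin m} {x y : Fin m × Fin 6} (h : adjB x y) {w : Vt m}
    (h1 : (G m).Adj (phi i x) w) (h2 : (G m).Adj (phi i y) w) :
    ∃ z, phi i z = w ∧ adjB x z ∧ adjB y z := by
  obtain ⟨i2, x2, z2, g2, ex, ez⟩ := h1
  obtain ⟨i3, y3, z3, g3, ey, ez'⟩ := h2
  by_cases hx : x.2 = 2
  · have hy := adjB_two h hx
    obtain ⟨rfl, rfl⟩ := phi_eq_non hy ey.symm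
    have hx2 : x2.2 = 2 := by rw [← phi_lab i2 x2, ex, phi_lab, hx]
    have hz2 := adjB_two g2 hx2
    obtain ⟨rfl, rfl⟩ := phi_eq_non hz2 (ez.trans ez'.symm)
    have := phi_inj ex
    subst this
    exact ⟨z2, ez, g2, g3⟩
  · obtain ⟨rfl, rfl⟩ := phi_eq_non hx ex.symm
    by_cases hy : y.2 = 2
    · have hy3 : y3.2 = 2 := by rw [← phi_lab i3 y3, ey, phi_lab, hy]
      have hz3 := adjB_two g3 hy3
      obtain ⟨rfl, rfl⟩ := phi_eq_non hz3 (ez'.trans ez.symm)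
      have := phi_inj ey
      subst this
      exact ⟨z3, ez', g2, g3⟩
    · obtain ⟨rfl, rfl⟩ := phi_eq_non hy ey.symm
      have := phi_inj (ez.trans ez'.symm)
      subst this
      exact ⟨z2, ez, g2, g3⟩

lemma adjB_pos {m : ℕ} {x y : Fin m × Fin 6} (h : adjB x y) :
    x.1.val = y.1.val ∨ x.1.val + 1 = y.1.val ∨ y.1.val + 1 = x.1.val := by
  rcases h with ⟨h, -⟩ | ⟨h, -⟩ | ⟨h, -⟩
  · exact Or.inl (by rw [h])
  · exact Or.inr (Or.inl h)
  · exact Or.inr (Or.inr h)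

/-- which of the two consecutive cells `j`, `j + 1`. -/
def side {m : ℕ} (j : ℕ) (x : Fin m × Fin 6) : Fin 2 := if x.1.val = j then 0 else 1

lemma to_aL {m j : ℕ} {x y : Fin m × Fin 6} (h : adjB x y) (hx : x.1.val = j ∨ x.1.val = j + 1)
    (hy : y.1.val = j ∨ y.1.val = j + 1) :
    aL (side j x) x.2 (side j y) y.2 = true ∧
      kap tin3 tcr3 x y = kL (side j x) x.2 (side j y) y.2 := by
  have s0 : ∀ z : Fin m × Fin 6, z.1.val = j → side j z = 0 := fun z hz => by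
    unfold side; rw [if_pos hz]
  have s1 : ∀ z : Fin m × Fin 6, z.1.val = j + 1 → side j z = 1 := fun z hz => by
    unfold side; rw [if_neg (by omega)]
  rcases hx with hx | hx <;> rcases hy with hy | hy
  · rw [s0 x hx, s0 y hy]
    have e : x.1 = y.1 := Fin.ext (by omega)
    rw [kap_same e]
    rcases h with ⟨-, h⟩ | ⟨h, -⟩ | ⟨h, -⟩
    · exact ⟨h, rfl⟩
    · omega
    · omega
  · rw [s0 x hx, s1 y hy]
    rw [kap_right (by omega)]
    rcases h with ⟨h, -⟩ | ⟨-, h⟩ | ⟨h, -⟩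
    · rw [h] at hx; omega
    · exact ⟨h, rfl⟩
    · omega
  · rw [s1 x hx, s0 y hy]
    rw [kap_left (by omega)]
    rcases h with ⟨h, -⟩ | ⟨h, -⟩ | ⟨-, h⟩
    · rw [h] at hx; omega
    · omega
    · exact ⟨h, rfl⟩
  · rw [s1 x hx, s1 y hy]
    have e : x.1 = y.1 := Fin.ext (by omega)
    rw [kap_same e]
    rcases h with ⟨-, h⟩ | ⟨h, -⟩ | ⟨h, -⟩
    · exact ⟨h, rfl⟩
    · omega
    · omega

lemma block_k4 {m : ℕ} {x0 x1 x2 x3 : Fin m × Fin 6} (h01 : adjB x0 x1) (h02 : adjB x0 x2)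
    (h03 : adjB x0 x3) (h12 : adjB x1 x2) (h13 : adjB x1 x3) (h23 : adjB x2 x3) :
    kap tin3 tcr3 x0 x1 = kap tin3 tcr3 x2 x3 ∨ kap tin3 tcr3 x0 x2 = kap tin3 tcr3 x1 x3 ∨
      kap tin3 tcr3 x0 x3 = kap tin3 tcr3 x1 x2 := by
  have g01 := adjB_pos h01
  have g02 := adjB_pos h02
  have g03 := adjB_pos h03
  have g12 := adjB_pos h12
  have g13 := adjB_pos h13
  have g23 := adjB_pos h23
  obtain ⟨j, hj0, hj1, hj2, hj3⟩ : ∃ j : ℕ, (x0.1.val = j ∨ x0.1.val = j + 1) ∧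
      (x1.1.val = j ∨ x1.1.val = j + 1) ∧ (x2.1.val = j ∨ x2.1.val = j + 1) ∧
      (x3.1.val = j ∨ x3.1.val = j + 1) := by
    refine ⟨min (min x0.1.val x1.1.val) (min x2.1.val x3.1.val), ?_, ?_, ?_, ?_⟩ <;> omega
  obtain ⟨a01, e01⟩ := to_aL h01 hj0 hj1
  obtain ⟨a02, e02⟩ := to_aL h02 hj0 hj2
  obtain ⟨a03, e03⟩ := to_aL h03 hj0 hj3
  obtain ⟨a12, e12⟩ := to_aL h12 hj1 hj2
  obtain ⟨a13, e13⟩ := to_aL h13 hj1 hj3
  obtain ⟨a23, e23⟩ := to_aL h23 hj2 hj3
  rw [e01, e02, e03, e12, e13, e23]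
  exact local_k4 _ _ _ _ a01 _ _ a02 a12 _ _ a03 a13 a23

lemma exists_noRainbow (m : ℕ) : ∃ c : Sym2 (Vt m) → ℕ, IsProper (G m) c ∧
    ¬ HasRainbow (⊤ : SimpleGraph (Fin 4)) (G m) c := by
  obtain ⟨c, hc⟩ := exists_col (m := m) (fun i x y => 9 * i.val + kap tin3 tcr3 x y)
    (fun i x y => by rw [kap_symm tin3_symm])
  refine ⟨c, ?_, ?_⟩
  · apply proper_of hc
    · intro i x y y' h h' hne
      have := kap_proper LP3 x y y' h h' hne
      omega
    · intro i i' x y x' y' hne hx hx' h1 h2 h h'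
      have e1 := kap_lt (m := m) tin3_lt tcr3_lt x y
      have e2 := kap_lt (m := m) tin3_lt tcr3_lt x' y'
      have : i.val ≠ i'.val := fun e => hne (Fin.ext e)
      omega
  · rintro ⟨f, hf, hadj, hr⟩
    obtain ⟨i, x0, x1, h01, e0, e1⟩ := hadj 0 1 (by simp)
    have g02 := hadj 0 2 (by simp)
    have g03 := hadj 0 3 (by simp)
    have g12 := hadj 1 2 (by simp)
    have g13 := hadj 1 3 (by simp)
    have g23 := hadj 2 3 (by simp)
    rw [← e0] at g02 g03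
    rw [← e1] at g12 g13
    obtain ⟨x2, e2, h02, h12⟩ := common h01 g02 g12
    obtain ⟨x3, e3, h03, h13⟩ := common h01 g03 g13
    rw [← e2] at g23
    obtain ⟨z, ez, h03', h23⟩ := common h02 g03 g23
    have := phi_inj (e3.trans ez.symm)
    subst this
    have key := block_k4 h01 h02 h03 h12 h13 h23
    have C : ∀ {x y : Fin m × Fin 6} {a b : Fin 4}, adjB x y → phi i x = f a → phi i y = f b →
        c ((s(a, b) : Sym2 (Fin 4)).map f) = 9 * i.val + kap tin3 tcr3 x y := by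
      intro x y a b h h1 h2
      rw [Sym2.map_mk, ← h1, ← h2, hc i x y h]
    rcases key with key | key | key
    · have := hr s(0, 1) (by simp) s(2, 3) (by simp) (by
        rw [C h01 e0 e1, C h23 e2 e3, key])
      exact absurd this (by decide)
    · have := hr s(0, 2) (by simp) s(1, 3) (by simp) (by
        rw [C h02 e0 e2, C h13 e1 e3, key])
      exact absurd this (by decide)
    · have := hr s(0, 3) (by simp) s(1, 2) (by simp) (by
        rw [C h03 e0 e3, C h12 e1 e2, key])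
      exact absurd this (by decide)

/-! ### The lower bound -/

lemma adj_in {m : ℕ} (j : Fin m) (x y : Fin 6) (h : A0 x y = true) :
    adjB (j, x) (j, y) := Or.inl ⟨rfl, h⟩

lemma adj_cr {m : ℕ} (j j' : Fin m) (hj : j.val + 1 = j'.val) (x y : Fin 6) (h : A1 x y = true) :
    adjB (j, x) (j', y) := Or.inr (Or.inl ⟨hj, h⟩)

lemma adj_cr' {m : ℕ} (j j' : Fin m) (hj : j.val + 1 = j'.val) (x y : Fin 6) (h : A1 x y = true) :
    adjB (j', y) (j, x) := adjB_symm (adj_cr j j' hj x y h)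

lemma phi_ne {m : ℕ} (i : Fin m) {x y : Fin m × Fin 6} (h : x ≠ y) : phi i x ≠ phi i y :=
  fun e => h (phi_inj e)

lemma step {m : ℕ} {c : Sym2 (Vt m) → ℕ} (hc : IsProper (G m) c)
    (hr : ¬ HasRainbow (⊤ : SimpleGraph (Fin 4)) (G m) c) (i j j' : Fin m)
    (hj : j.val + 1 = j'.val) :
    c s(phi i (j, 2), phi i (j, 3)) = c s(phi i (j', 2), phi i (j', 3)) := by
  have hne : j ≠ j' := fun e => by rw [e] at hj; omega
  have I : ∀ (j : Fin m) (x y : Fin 6), A0 x y = true → (G m).Adj (phi i (j, x)) (phi i (j, y)) :=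
    fun j x y h => adj_G i (adj_in j x y h)
  have X : ∀ (x y : Fin 6), A1 x y = true → (G m).Adj (phi i (j, x)) (phi i (j', y)) :=
    fun x y h => adj_G i (adj_cr j j' hj x y h)
  have h1 := gadget hc hr (p := phi i (j, 0)) (q := phi i (j, 1)) (a := phi i (j, 2))
    (b := phi i (j, 3)) (x := phi i (j, 4)) (d := phi i (j, 5)) (r := phi i (j', 0))
    (I j 0 2 (by decide)) (I j 0 3 (by decide)) (I j 0 4 (by decide)) (I j 0 5 (by decide))
    (I j 1 2 (by decide)) (I j 1 3 (by decide)) (I j 1 4 (by decide)) (I j 1 5 (by decide))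
    (I j 2 3 (by decide)) (I j 2 4 (by decide)) (I j 2 5 (by decide)) (I j 3 4 (by decide))
    (I j 3 5 (by decide)) (I j 4 5 (by decide))
    (X 1 0 (by decide)).symm (X 2 0 (by decide)).symm (X 3 0 (by decide)).symm
    (phi_ne i (by simp)) (phi_ne i (by simp [hne.symm])) (phi_ne i (by simp [hne.symm]))
    (phi_ne i (by simp [hne.symm]))
  have h2 := gadget hc hr (p := phi i (j', 1)) (q := phi i (j', 0)) (a := phi i (j', 4))
    (b := phi i (j', 5)) (x := phi i (j', 2)) (d := phi i (j', 3)) (r := phi i (j, 1))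
    (I j' 1 4 (by decide)) (I j' 1 5 (by decide)) (I j' 1 2 (by decide)) (I j' 1 3 (by decide))
    (I j' 0 4 (by decide)) (I j' 0 5 (by decide)) (I j' 0 2 (by decide)) (I j' 0 3 (by decide))
    (I j' 4 5 (by decide)) (I j' 4 2 (by decide)) (I j' 4 3 (by decide)) (I j' 5 2 (by decide))
    (I j' 5 3 (by decide)) (I j' 2 3 (by decide))
    (X 1 0 (by decide)) (X 1 4 (by decide)) (X 1 5 (by decide))
    (phi_ne i (by simp)) (phi_ne i (by simp [hne])) (phi_ne i (by simp [hne]))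
    (phi_ne i (by simp [hne]))
  obtain ⟨-, h1b⟩ := h1
  obtain ⟨h2a, h2b⟩ := h2
  rw [← h1b, ← h2a, ← h2b, Sym2.eq_swap]

lemma const_chain {m : ℕ} {c : Sym2 (Vt m) → ℕ} (hc : IsProper (G m) c)
    (hr : ¬ HasRainbow (⊤ : SimpleGraph (Fin 4)) (G m) c) (i : Fin m) (hm : 0 < m) :
    ∀ (n : ℕ) (hn : n < m), c s(phi i (⟨n, hn⟩, 2), phi i (⟨n, hn⟩, 3)) =
      c s(phi i (⟨0, hm⟩, 2), phi i (⟨0, hm⟩, 3)) := by
  intro n
  induction n with
  | zero => intro hn; rfl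
  | succ n ih =>
    intro hn
    rw [← ih (by omega)]
    exact (step hc hr i ⟨n, by omega⟩ ⟨n + 1, hn⟩ rfl).symm

lemma lower {m : ℕ} {c : Sym2 (Vt m) → ℕ} (hc : IsProper (G m) c)
    (hr : ¬ HasRainbow (⊤ : SimpleGraph (Fin 4)) (G m) c) : m ≤ numColors (G m) c := by
  rcases Nat.eq_zero_or_pos m with h0 | hm
  · omega
  · set g : Fin m → ℕ := fun i => c s(phi i (⟨0, hm⟩, 2), phi i (⟨0, hm⟩, 3)) with hg
    have hinj : Function.Injective g := by
      intro i i' hii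
      by_contra hne
      have e1 := const_chain hc hr i hm i'.val i'.isLt
      have e2 := const_chain hc hr i' hm i.val i.isLt
      simp only [Fin.eta] at e1 e2
      have hv : phi i (i', 2) = phi i' (i, 2) := by
        rw [phi_two i _ rfl, phi_two i' _ rfl]
        simp only [min_comm i i', max_comm i i']
      have hb : phi i (i', 3) ≠ phi i' (i, 3) := by
        intro e
        exact hne (phi_eq_non (x := (i', 3)) (show (3 : Fin 6) ≠ 2 by decide) e).1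
      have a1 : (G m).Adj (phi i (i', 2)) (phi i (i', 3)) := adj_G i (adj_in i' 2 3 (by decide))
      have a2 : (G m).Adj (phi i' (i, 2)) (phi i' (i, 3)) := adj_G i' (adj_in i 2 3 (by decide))
      rw [← hv] at a2
      have := proper_ne hc a1 a2 hb
      apply this
      rw [e1]
      rw [← hv] at e2
      rw [e2]
      exact hii
    have hsub : Set.range g ⊆ c '' (G m).edgeSet := by
      rintro _ ⟨i, rfl⟩
      exact ⟨_, adj_G i (adj_in ⟨0, hm⟩ 2 3 (by decide)), rfl⟩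
    have hcard : (Set.range g).ncard = m := by
      rw [← Set.image_univ, Set.ncard_image_of_injective _ hinj, Set.ncard_univ, Nat.card_eq_fintype_card,
        Fintype.card_fin]
    unfold numColors
    calc m = (Set.range g).ncard := hcard.symm
      _ ≤ _ := Set.ncard_le_ncard hsub (Set.toFinite _)

/-- **Main theorem.** For every `k` there is a finite graph `G` of chromatic index at most `144` such
that every proper edge colouring of `G` with at most `χ'(G) + k` colours contains a rainbow `K₄`,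
while some proper edge colouring of `G` contains no rainbow `K₄`.  In particular no `k` has the
property asked for in the problem. -/
theorem result :
    (∀ k : ℕ, ∃ (V : Type) (_ : Fintype V) (G : SimpleGraph V), chromIndex G ≤ 144 ∧
      (∀ c : Sym2 V → ℕ, IsProper G c → numColors G c ≤ chromIndex G + k →
        HasRainbow (⊤ : SimpleGraph (Fin 4)) G c) ∧
      ∃ c : Sym2 V → ℕ, IsProper G c ∧ ¬ HasRainbow (⊤ : SimpleGraph (Fin 4)) G c) ∧
    ¬ ∃ k : ℕ, ∀ (W V : Type) [Finite W] [Finite V] (H : SimpleGraph W) (G : SimpleGraph V),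
      (∀ c : Sym2 V → ℕ, IsProper G c → numColors G c ≤ chromIndex G + k → HasRainbow H G c) →
      ∀ c : Sym2 V → ℕ, IsProper G c → HasRainbow H G c := by
  have main : ∀ k : ℕ, ∃ (V : Type) (_ : Fintype V) (G : SimpleGraph V), chromIndex G ≤ 144 ∧
      (∀ c : Sym2 V → ℕ, IsProper G c → numColors G c ≤ chromIndex G + k →
        HasRainbow (⊤ : SimpleGraph (Fin 4)) G c) ∧
      ∃ c : Sym2 V → ℕ, IsProper G c ∧ ¬ HasRainbow (⊤ : SimpleGraph (Fin 4)) G c := by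
    intro k
    refine ⟨Vt (145 + k), inferInstance, G (145 + k), chromIndex_le _, ?_, exists_noRainbow _⟩
    intro c hc hn
    by_contra hr
    have h1 := lower hc hr
    have h2 := chromIndex_le (145 + k)
    omega
  refine ⟨main, ?_⟩
  rintro ⟨k, hk⟩
  obtain ⟨V, hV, G, -, h1, c, hc, hr⟩ := main k
  exact hr (hk (Fin 4) V ⊤ G h1 c hc)

end Pool.Agent.Results.MP_415bd8_co.UnboundedSurplus
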